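import Pool.Agent.Q275.GQ.Stm
import Pool.Agent.H493R3.Weyl

/-!
# Project GQ: Weyl's criterion for boxes in the torus (job BOX)
-/

set_option autoImplicit false

namespace Pool.Agent.Q231.GQ

open Filter Topology MeasureTheory Pool.Agent.Q275.GQ
open Pool.Agent.H493R3 (Circ integral_fourier_eq_zero volume_arc)
open scoped Classical

theorem cint (f : C(Circ, ℂ)) : Integrable (fun y : Circ => f y) (volume : Measure Circ) :=
  f.continuous.integrable_of_hasCompactSupport (HasCompactSupport.of_compactSpace _)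

/-- Weyl's criterion with weights. -/
theorem wweyl (c : ℕ → ℂ) (C : ℝ) (hc : ∀ i, ‖c i‖ ≤ C) (κ : ℂ) (x : ℕ → Circ)
    (hx : ∀ n : ℤ, Tendsto (fun M : ℕ => (∑ m ∈ Finset.range M, c m * (fourier n (x m) : ℂ)) / M)
      atTop (𝓝 (if n = 0 then κ else 0)))
    (h : C(Circ, ℂ)) :
    Tendsto (fun M : ℕ => (∑ m ∈ Finset.range M, c m * h (x m)) / M) atTop
      (𝓝 (κ * ∫ y : Circ, h y)) := by
  have hC : 0 ≤ C := (norm_nonneg _).trans (hc 0)
  have hmem : ∀ f ∈ (Submodule.span ℂ (Set.range <| @fourier 1)),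
      Tendsto (fun M : ℕ => (∑ m ∈ Finset.range M, c m * (f : C(Circ, ℂ)) (x m)) / M) atTop
        (𝓝 (κ * ∫ y : Circ, f y)) := by
    intro f hf
    induction hf using Submodule.span_induction with
    | mem f hf =>
      obtain ⟨n, rfl⟩ := hf
      by_cases hn : n = 0
      · subst hn
        have hint : ∫ y : Circ, (fourier 0 y : ℂ) = 1 := by
          simp [fourier_zero, Measure.real]
        rw [hint, mul_one]
        have := hx 0
        rwa [if_pos rfl] at this
      · rw [integral_fourier_eq_zero hn, mul_zero]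
        have := hx n
        rwa [if_neg hn] at this
    | zero =>
      simp
    | add f g hf hg ihf ihg =>
      have hi : ∫ y : Circ, (f + g) y = (∫ y : Circ, f y) + ∫ y : Circ, g y := by
        have := integral_add (cint f) (cint g)
        simpa using this
      rw [hi, mul_add]
      refine (ihf.add ihg).congr (fun M => ?_)
      rw [← add_div, ← Finset.sum_add_distrib]
      congr 1
      refine Finset.sum_congr rfl fun m _ => ?_
      rw [ContinuousMap.add_apply]
      ring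
    | smul a f hf ihf =>
      have hi : ∫ y : Circ, (a • f) y = a * (∫ y : Circ, f y) := by
        simp [integral_const_mul]
      rw [hi, show κ * (a * ∫ y : Circ, f y) = a * (κ * ∫ y : Circ, f y) by ring]
      refine (ihf.const_mul a).congr (fun M => ?_)
      rw [← mul_div_assoc, Finset.mul_sum]
      congr 1
      refine Finset.sum_congr rfl fun m _ => ?_
      simp only [ContinuousMap.coe_smul, Pi.smul_apply, smul_eq_mul]
      ring
  rw [Metric.tendsto_atTop]
  intro ε hε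
  have hD : 0 < C + ‖κ‖ + 1 := by positivity
  have hcl : h ∈ (Submodule.span ℂ (Set.range <| @fourier 1)).topologicalClosure := by
    rw [span_fourier_closure_eq_top]; trivial
  rw [← SetLike.mem_coe, Submodule.topologicalClosure_coe, Metric.mem_closure_iff] at hcl
  obtain ⟨f, hf, hfd⟩ := hcl (ε / 3 / (C + ‖κ‖ + 1)) (by positivity)
  have := Metric.tendsto_atTop.1 (hmem f hf) (ε / 3) (by positivity)
  obtain ⟨N, hN⟩ := this
  refine ⟨N, fun M hM => ?_⟩
  have h1 := hN M hM
  have h4 : ‖h - f‖ < ε / 3 / (C + ‖κ‖ + 1) := by rw [← dist_eq_norm]; exact hfd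
  have h5 : ‖h - f‖ * (C + ‖κ‖ + 1) < ε / 3 := by rwa [lt_div_iff₀ hD] at h4
  have h2 : ‖(∑ m ∈ Finset.range M, c m * h (x m)) / (M : ℂ) -
      (∑ m ∈ Finset.range M, c m * f (x m)) / (M : ℂ)‖ ≤ ‖h - f‖ * C := by
    rcases Nat.eq_zero_or_pos M with rfl | hM0
    · simp only [Finset.range_zero, Finset.sum_empty, zero_div, sub_zero, norm_zero]
      positivity
    rw [← sub_div, ← Finset.sum_sub_distrib, norm_div, Complex.norm_natCast,
      div_le_iff₀ (by exact_mod_cast hM0)]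
    calc ‖∑ m ∈ Finset.range M, (c m * h (x m) - c m * f (x m))‖
        ≤ ∑ m ∈ Finset.range M, ‖c m * h (x m) - c m * f (x m)‖ := norm_sum_le _ _
      _ ≤ ∑ _m ∈ Finset.range M, ‖h - f‖ * C := by
          refine Finset.sum_le_sum fun m _ => ?_
          rw [← mul_sub, norm_mul, mul_comm]
          refine mul_le_mul ((h - f).norm_coe_le_norm (x m)) (hc m) (norm_nonneg _) (norm_nonneg _)
      _ = ‖h - f‖ * C * M := by
          rw [Finset.sum_const, Finset.card_range, nsmul_eq_mul]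
          ring
  have h3 : ‖κ * (∫ y : Circ, f y) - κ * ∫ y : Circ, h y‖ ≤ ‖h - f‖ * ‖κ‖ := by
    rw [← mul_sub, norm_mul, mul_comm]
    refine mul_le_mul_of_nonneg_right ?_ (norm_nonneg _)
    rw [← integral_sub (cint f) (cint h)]
    calc ‖∫ y : Circ, (f y - h y)‖ ≤ ‖h - f‖ * (volume : Measure Circ).real Set.univ := by
          apply norm_integral_le_of_norm_le_const
          filter_upwards with y
          rw [norm_sub_rev]
          exact (h - f).norm_coe_le_norm y
      _ = ‖h - f‖ := by simp [Measure.real]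
  have h6 : ‖h - f‖ * C + ‖h - f‖ * ‖κ‖ ≤ ‖h - f‖ * (C + ‖κ‖ + 1) := by
    have := norm_nonneg (h - f)
    nlinarith
  calc dist ((∑ m ∈ Finset.range M, c m * h (x m)) / (M : ℂ)) (κ * ∫ y : Circ, h y)
      ≤ dist ((∑ m ∈ Finset.range M, c m * h (x m)) / (M : ℂ))
          ((∑ m ∈ Finset.range M, c m * f (x m)) / (M : ℂ)) +
        dist ((∑ m ∈ Finset.range M, c m * f (x m)) / (M : ℂ)) (κ * ∫ y : Circ, f y)
        + dist (κ * ∫ y : Circ, f y) (κ * ∫ y : Circ, h y) := dist_triangle4 _ _ _ _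
    _ < ε := by
        rw [dist_eq_norm, dist_eq_norm (κ * ∫ y : Circ, f y)]
        linarith

/-- Weyl's criterion on the torus, for products. -/
theorem weyl2 (u v : ℕ → Circ)
    (h : ∀ m n : ℤ, (m, n) ≠ (0, 0) → Tendsto (fun N : ℕ =>
      (∑ i ∈ Finset.range N, (fourier m (u i) : ℂ) * (fourier n (v i) : ℂ)) / N) atTop (𝓝 0))
    (f g : C(Circ, ℂ)) :
    Tendsto (fun N : ℕ => (∑ i ∈ Finset.range N, f (u i) * g (v i)) / N) atTop
      (𝓝 ((∫ y : Circ, f y) * ∫ y : Circ, g y)) := by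
  have h0 : ∀ m n : ℤ, Tendsto (fun N : ℕ =>
      (∑ i ∈ Finset.range N, (fourier m (u i) : ℂ) * (fourier n (v i) : ℂ)) / N) atTop
      (𝓝 (if m = 0 then (if n = 0 then 1 else 0) else 0)) := by
    intro m n
    by_cases hmn : (m, n) = (0, 0)
    · obtain ⟨rfl, rfl⟩ := Prod.mk.inj hmn
      rw [if_pos rfl, if_pos rfl]
      refine Tendsto.congr' ?_ tendsto_const_nhds
      filter_upwards [eventually_gt_atTop 0] with N hN
      simp only [fourier_zero, mul_one, Finset.sum_const, Finset.card_range, nsmul_eq_mul]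
      have : (N : ℂ) ≠ 0 := by exact_mod_cast hN.ne'
      field_simp
    · have : (if m = 0 then (if n = 0 then (1 : ℂ) else 0) else 0) = 0 := by
        by_cases hm : m = 0
        · rw [if_pos hm, if_neg]
          intro hn
          exact hmn (by rw [hm, hn])
        · rw [if_neg hm]
      rw [this]
      exact h m n hmn
  have h1 : ∀ n : ℤ, Tendsto (fun N : ℕ =>
      (∑ i ∈ Finset.range N, (fourier n (v i) : ℂ) * f (u i)) / N) atTop
      (𝓝 ((if n = 0 then 1 else 0) * ∫ y : Circ, f y)) := by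
    intro n
    refine wweyl (fun i => (fourier n (v i) : ℂ)) ‖(fourier n : C(Circ, ℂ))‖
      (fun i => (fourier n : C(Circ, ℂ)).norm_coe_le_norm _) _ u ?_ f
    intro m
    refine (h0 m n).congr fun N => ?_
    congr 1
    exact Finset.sum_congr rfl fun i _ => mul_comm _ _
  refine wweyl (fun i => f (u i)) ‖f‖ (fun i => f.norm_coe_le_norm _) _ v ?_ g
  intro n
  have h2 := h1 n
  have h3 : (if n = 0 then (1 : ℂ) else 0) * ∫ y : Circ, f y = if n = 0 then ∫ y : Circ, f y else 0 := by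
    split_ifs <;> simp
  rw [h3] at h2
  refine h2.congr fun N => ?_
  congr 1
  exact Finset.sum_congr rfl fun i _ => mul_comm _ _

/-- a bump function for a closed set -/
theorem bumpf {E : Set Circ} (hE : IsClosed E) (w : ℝ) (hw : 0 ≤ w)
    (hEv : volume E ≤ ENNReal.ofReal w) (ε : ℝ) (hε : 0 < ε) :
    ∃ g : C(Circ, ℝ), (∀ y, 0 ≤ g y) ∧ (∀ y ∈ E, g y = 1) ∧ 0 ≤ ∫ y : Circ, g y ∧
      ∫ y : Circ, g y ≤ w + ε := by
  obtain ⟨U, hNU, hUo, hUv⟩ : ∃ U ⊇ E, IsOpen U ∧ volume U < ENNReal.ofReal (w + ε) :=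
    E.exists_isOpen_lt_of_lt _ (by
      refine lt_of_le_of_lt hEv ?_
      exact (ENNReal.ofReal_lt_ofReal_iff (by linarith)).2 (by linarith))
  obtain ⟨g, hg0, hg1, hg01⟩ := exists_continuous_zero_one_of_isClosed hUo.isClosed_compl hE
    (by rw [Set.disjoint_compl_left_iff_subset]; exact hNU)
  refine ⟨g, fun y => (hg01 y).1, fun y hy => hg1 hy, integral_nonneg fun y => (hg01 y).1, ?_⟩
  have h2 : ∫ y : Circ, g y ≤ ∫ y : Circ, U.indicator (fun _ => (1 : ℝ)) y := by
    apply integral_mono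
    · exact g.continuous.integrable_of_hasCompactSupport (HasCompactSupport.of_compactSpace _)
    · exact (integrable_indicator_iff hUo.measurableSet).2 (integrableOn_const (by simp))
    · intro y
      by_cases hy : y ∈ U
      · simp only [hy, Set.indicator_of_mem]; exact (hg01 y).2
      · simp only [hy, not_false_eq_true, Set.indicator_of_notMem]
        exact le_of_eq (hg0 hy)
  rw [integral_indicator hUo.measurableSet] at h2
  simp only [integral_const, MeasurableSet.univ, measureReal_restrict_apply, Set.univ_inter,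
    smul_eq_mul, mul_one] at h2
  refine h2.trans ?_
  rw [Measure.real]
  exact ENNReal.toReal_le_of_le_ofReal (by positivity) hUv.le

/-- upper bound for the frequency of the visits to a product of closed sets -/
theorem upper2 (u v : ℕ → Circ)
    (h : ∀ m n : ℤ, (m, n) ≠ (0, 0) → Tendsto (fun N : ℕ =>
      (∑ i ∈ Finset.range N, (fourier m (u i) : ℂ) * (fourier n (v i) : ℂ)) / N) atTop (𝓝 0))
    {E F : Set Circ} (hE : IsClosed E) (hF : IsClosed F) (w : ℝ) (hw : 0 ≤ w)
    (hEv : volume E ≤ ENNReal.ofReal w) (hFv : volume F ≤ ENNReal.ofReal w) (ε : ℝ) (hε : 0 < ε) :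
    ∀ᶠ N : ℕ in atTop,
      (∑ i ∈ Finset.range N, (if u i ∈ E ∧ v i ∈ F then (1 : ℝ) else 0)) / N < w ^ 2 + ε := by
  obtain ⟨δ, hδ, hδε⟩ : ∃ δ : ℝ, 0 < δ ∧ (w + δ) * (w + δ) < w ^ 2 + ε := by
    refine ⟨min 1 (ε / (2 * w + 2)), lt_min one_pos (by positivity), ?_⟩
    have h1 : min 1 (ε / (2 * w + 2)) ≤ 1 := min_le_left _ _
    have h2 : min 1 (ε / (2 * w + 2)) ≤ ε / (2 * w + 2) := min_le_right _ _
    have h3 : 0 < min 1 (ε / (2 * w + 2)) := lt_min one_pos (by positivity)
    rw [le_div_iff₀ (by positivity)] at h2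
    nlinarith
  obtain ⟨f, hf0, hf1, hfi0, hfi⟩ := bumpf hE w hw hEv δ hδ
  obtain ⟨g, hg0, hg1, hgi0, hgi⟩ := bumpf hF w hw hFv δ hδ
  let fc : C(Circ, ℂ) := ⟨fun y => (f y : ℂ), by fun_prop⟩
  let gc : C(Circ, ℂ) := ⟨fun y => (g y : ℂ), by fun_prop⟩
  have hfc : ∫ y : Circ, fc y = ((∫ y : Circ, f y : ℝ) : ℂ) := by
    simp only [fc, ContinuousMap.coe_mk]
    exact integral_ofReal
  have hgc : ∫ y : Circ, gc y = ((∫ y : Circ, g y : ℝ) : ℂ) := by
    simp only [gc, ContinuousMap.coe_mk]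
    exact integral_ofReal
  have hW := weyl2 u v h fc gc
  rw [hfc, hgc, ← Complex.ofReal_mul] at hW
  have hW' := (Complex.continuous_re.tendsto _).comp hW
  rw [Complex.ofReal_re] at hW'
  have hlt : (∫ y : Circ, f y) * ∫ y : Circ, g y < w ^ 2 + ε :=
    lt_of_le_of_lt (mul_le_mul hfi hgi hgi0 (by linarith)) hδε
  filter_upwards [hW'.eventually_lt_const hlt] with N hN
  refine lt_of_le_of_lt ?_ hN
  have : ((∑ i ∈ Finset.range N, fc (u i) * gc (v i)) / (N : ℂ)) =
      (((∑ i ∈ Finset.range N, f (u i) * g (v i)) / N : ℝ) : ℂ) := by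
    push_cast; rfl
  rw [Function.comp_apply, this, Complex.ofReal_re]
  gcongr with i _
  split_ifs with hi
  · rw [hf1 _ hi.1, hg1 _ hi.2, mul_one]
  · exact mul_nonneg (hf0 _) (hg0 _)

/-- frequencies with the sum one, bounded above by `p` in the limit -/
theorem squeeze {ι : Type*} (S : Finset ι) (F : ι → ℕ → ℝ) (p : ℝ) (hp : p * S.card = 1)
    (hsum : ∀ᶠ N in atTop, ∑ s ∈ S, F s N = 1)
    (hup : ∀ s ∈ S, ∀ ε : ℝ, 0 < ε → ∀ᶠ N in atTop, F s N < p + ε) (s : ι) (hs : s ∈ S) :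
    Tendsto (F s) atTop (𝓝 p) := by
  rw [Metric.tendsto_atTop']
  intro ε hε
  have hcard : 0 < (S.card : ℝ) := by
    have : 0 < S.card := Finset.card_pos.2 ⟨s, hs⟩
    exact_mod_cast this
  have h1 : ∀ᶠ N in atTop, ∀ t ∈ S, F t N < p + ε / (S.card + 1) := by
    rw [Filter.eventually_all_finset]
    intro t ht
    exact hup t ht _ (by positivity)
  obtain ⟨N0, hN0⟩ := eventually_atTop.1 (h1.and hsum)
  refine ⟨N0, fun N hN => ?_⟩
  obtain ⟨h2, h3⟩ := hN0 N hN.le
  have h4 : ε / (S.card + 1) * (S.card + 1) = ε := by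
    field_simp
  have h5 : 0 < ε / (S.card + 1) := by positivity
  have h6 : ∑ t ∈ S.erase s, F t N ≤ ∑ _t ∈ S.erase s, (p + ε / (S.card + 1)) :=
    Finset.sum_le_sum fun t ht => (h2 t (Finset.mem_of_mem_erase ht)).le
  rw [Finset.sum_const, Finset.card_erase_of_mem hs, nsmul_eq_mul,
    Nat.cast_sub (Finset.card_pos.2 ⟨s, hs⟩)] at h6
  have h7 : F s N + ∑ t ∈ S.erase s, F t N = 1 := by
    rw [Finset.add_sum_erase S (fun t => F t N) hs, h3]
  rw [Real.dist_eq, abs_lt]
  push_cast at h6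
  constructor
  · nlinarith
  · have := h2 s hs
    nlinarith

theorem e_eq (m n : ℤ) (s t : ℝ) :
    e (m * s + n * t) = (fourier m (s : Circ) : ℂ) * (fourier n (t : Circ) : ℂ) := by
  rw [fourier_coe_apply, fourier_coe_apply, ← Complex.exp_add]
  unfold e
  congr 1
  push_cast
  ring

theorem mem_arc {Q : ℕ} (hQ : 0 < Q) {a : ℕ} {t : ℝ} (h : ⌊Q * Int.fract t⌋ = (a : ℤ)) :
    (t : Circ) ∈ ((fun t : ℝ => (t : Circ)) '' Set.Icc ((a : ℝ) / Q) (((a : ℝ) + 1) / Q)) := by
  have hQ' : (0 : ℝ) < Q := by exact_mod_cast hQ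
  rw [Int.floor_eq_iff] at h
  refine ⟨Int.fract t, ⟨?_, ?_⟩, ?_⟩
  · rw [div_le_iff₀ hQ']
    have := h.1
    push_cast at this
    linarith
  · rw [le_div_iff₀ hQ']
    have := h.2
    push_cast at this
    linarith
  · show ((Int.fract t : ℝ) : Circ) = (t : Circ)
    have h1 : Int.fract t = t - (⌊t⌋ : ℝ) := rfl
    rw [h1, AddCircle.coe_sub]
    have h2 : (((⌊t⌋ : ℤ) : ℝ) : Circ) = 0 := by
      rw [AddCircle.coe_eq_zero_iff]
      exact ⟨⌊t⌋, by simp⟩
    rw [h2, sub_zero]

theorem box_eq : S_BOX := by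
  intro u v h Q hQ a b ha hb
  have hQ' : (0 : ℝ) < Q := by exact_mod_cast hQ
  have h' : ∀ m n : ℤ, (m, n) ≠ (0, 0) → Tendsto (fun N : ℕ =>
      (∑ i ∈ Finset.range N, (fourier m ((u i : ℝ) : Circ) : ℂ) * (fourier n ((v i : ℝ) : Circ) : ℂ))
        / N) atTop (𝓝 0) := by
    intro m n hmn
    refine (h m n hmn).congr fun N => ?_
    congr 1
    exact Finset.sum_congr rfl fun i _ => e_eq m n (u i) (v i)
  let S : Finset (ℕ × ℕ) := Finset.range Q ×ˢ Finset.range Q
  let F : ℕ × ℕ → ℕ → ℝ := fun s N => (((Finset.range N).filter (fun i =>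
      ⌊Q * Int.fract (u i)⌋ = (s.1 : ℤ) ∧ ⌊Q * Int.fract (v i)⌋ = (s.2 : ℤ))).card : ℝ) / N
  have hrep : ∀ t : ℝ, ∃ c < Q, ⌊Q * Int.fract t⌋ = (c : ℤ) := by
    intro t
    have h1 : 0 ≤ ⌊Q * Int.fract t⌋ := Int.floor_nonneg.2 (mul_nonneg hQ'.le (Int.fract_nonneg t))
    have h2 : ⌊Q * Int.fract t⌋ < Q := by
      rw [Int.floor_lt]
      have := Int.fract_lt_one t
      push_cast
      nlinarith
    refine ⟨⌊Q * Int.fract t⌋.toNat, ?_, ?_⟩
    · omega
    · omega
  have key : ∀ s ∈ S, Tendsto (F s) atTop (𝓝 (1 / (Q : ℝ) ^ 2)) := by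
    intro s hs
    refine squeeze S F (1 / (Q : ℝ) ^ 2) ?_ ?_ ?_ s hs
    · rw [Finset.card_product, Finset.card_range]
      push_cast
      field_simp
    · filter_upwards [eventually_gt_atTop 0] with N hN
      have hN' : (N : ℝ) ≠ 0 := by exact_mod_cast hN.ne'
      rw [← Finset.sum_div]
      rw [div_eq_one_iff_eq hN']
      have h1 : ∑ s ∈ S, ((Finset.range N).filter (fun i =>
          ⌊Q * Int.fract (u i)⌋ = (s.1 : ℤ) ∧ ⌊Q * Int.fract (v i)⌋ = (s.2 : ℤ))).card = N := by
        simp only [Finset.card_filter]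
        rw [Finset.sum_comm]
        have h2 : ∀ i ∈ Finset.range N, (∑ s ∈ S, if ⌊Q * Int.fract (u i)⌋ = (s.1 : ℤ) ∧
            ⌊Q * Int.fract (v i)⌋ = (s.2 : ℤ) then 1 else 0) = 1 := by
          intro i _
          obtain ⟨c, hc, hc'⟩ := hrep (u i)
          obtain ⟨c2, hc2, hc2'⟩ := hrep (v i)
          rw [Finset.sum_eq_single (c, c2)]
          · rw [if_pos ⟨hc', hc2'⟩]
          · rintro ⟨s1, s2⟩ _ hne
            rw [if_neg]
            rintro ⟨h3, h4⟩
            apply hne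
            rw [hc'] at h3
            rw [hc2'] at h4
            have h3' : c = s1 := by exact_mod_cast h3
            have h4' : c2 = s2 := by exact_mod_cast h4
            rw [h3', h4']
          · intro h3
            exact absurd (Finset.mem_product.2 ⟨Finset.mem_range.2 hc, Finset.mem_range.2 hc2⟩) h3
        rw [Finset.sum_congr rfl h2, Finset.sum_const, Finset.card_range, smul_eq_mul, mul_one]
      exact_mod_cast h1
    · intro t ht ε hε
      have hcl : ∀ c : ℕ, IsClosed ((fun t : ℝ => (t : Circ)) '' Set.Icc ((c : ℝ) / Q)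
          (((c : ℝ) + 1) / Q)) := fun c =>
        (isCompact_Icc.image (AddCircle.continuous_mk' (1 : ℝ))).isClosed
      have hvol : ∀ c : ℕ, volume ((fun t : ℝ => (t : Circ)) '' Set.Icc ((c : ℝ) / Q)
          (((c : ℝ) + 1) / Q)) ≤ ENNReal.ofReal (1 / Q) := by
        intro c
        have h1 : ((c : ℝ) + 1) / Q = (c : ℝ) / Q + 1 / Q := by ring
        have h2 : 1 / (Q : ℝ) ≤ 1 := by
          rw [div_le_one hQ']
          exact_mod_cast hQ
        refine (volume_arc _ _ (by rw [h1]; linarith)).trans ?_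
        rw [h1]
        apply le_of_eq
        congr 1
        ring
      have hup := upper2 (fun i => ((u i : ℝ) : Circ)) (fun i => ((v i : ℝ) : Circ)) h' (hcl t.1)
        (hcl t.2) (1 / Q) (by positivity) (hvol t.1) (hvol t.2) ε hε
      filter_upwards [hup] with N hN
      refine lt_of_le_of_lt ?_ (hN.trans_eq (by ring))
      show (((Finset.range N).filter (fun i =>
        ⌊Q * Int.fract (u i)⌋ = (t.1 : ℤ) ∧ ⌊Q * Int.fract (v i)⌋ = (t.2 : ℤ))).card : ℝ) / N ≤ _
      rw [Finset.card_filter]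
      push_cast
      gcongr with i _
      by_cases hi : ⌊Q * Int.fract (u i)⌋ = (t.1 : ℤ) ∧ ⌊Q * Int.fract (v i)⌋ = (t.2 : ℤ)
      · rw [if_pos hi, if_pos ⟨mem_arc hQ hi.1, mem_arc hQ hi.2⟩]
      · rw [if_neg hi]
        split_ifs <;> norm_num
  exact key (a, b) (Finset.mem_product.2 ⟨Finset.mem_range.2 ha, Finset.mem_range.2 hb⟩)

end Pool.Agent.Q231.GQ
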